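import Pool.Agent.MP306e37.Quot

set_option autoImplicit false
set_option linter.style.haveILetI false

/-!
Every group with a Golod-Shafarevich presentation for the prime two has a quotient with such a
presentation and with at most `exp (n ^ η)` subgroups of index at most `n`, for every `η > 0` and
all large `n`.
-/

namespace Pool.Agent.Results.MP_306e37_al.SlowQuotient

open Filter Topology Pool.Agent.MP306e37

/-- The augmentation ideal `M` of the group algebra over the field with two elements of the free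
group of rank `d`, as a subspace: the span of all `g - 1`. -/
noncomputable def augIdeal (d : ℕ) :
    Submodule (ZMod 2) (MonoidAlgebra (ZMod 2) (FreeGroup (Fin d))) :=
  Submodule.span (ZMod 2) (Set.range fun g : FreeGroup (Fin d) =>
    MonoidAlgebra.of (ZMod 2) (FreeGroup (Fin d)) g - 1)

/-- The term `D_n` of the mod-2 Zassenhaus filtration of the free group of rank `d`. -/
def zas (d n : ℕ) : Set (FreeGroup (Fin d)) :=
  {r | MonoidAlgebra.of (ZMod 2) (FreeGroup (Fin d)) r - 1 ∈ augIdeal d ^ n}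

/-- The weight `t ^ deg r`, where `deg r` is the largest `n` with `r ∈ D_n`: the infimum of the
numbers `t ^ n` over all `n` with `r ∈ D_n`. -/
noncomputable def wt {d : ℕ} (t : ℝ) (r : FreeGroup (Fin d)) : ℝ :=
  ⨅ n : {n : ℕ // r ∈ zas d n}, t ^ (n : ℕ)

/-- The Golod-Shafarevich condition at `t` for the set `R` of relators in the free group of rank
`d`: the series `H_R(t)` converges and `1 - d t + H_R(t) < 0`. -/
def IsGS (d : ℕ) (R : Set (FreeGroup (Fin d))) (t : ℝ) : Prop :=
  Summable (fun r : R => wt t (r : FreeGroup (Fin d))) ∧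
    1 - (d : ℝ) * t + ∑' r : R, wt t (r : FreeGroup (Fin d)) < 0

variable {d : ℕ}

theorem wt_nonneg {t : ℝ} (ht : 0 ≤ t) (r : FreeGroup (Fin d)) : 0 ≤ wt t r :=
  Real.iInf_nonneg fun _ => pow_nonneg ht _

theorem wt_le {t : ℝ} (ht : 0 ≤ t) {r : FreeGroup (Fin d)} {n : ℕ} (hr : r ∈ zas d n) :
    wt t r ≤ t ^ n :=
  ciInf_le (f := fun n : {n : ℕ // r ∈ zas d n} => t ^ (n : ℕ))
    ⟨0, by rintro _ ⟨n, rfl⟩; exact pow_nonneg ht _⟩ ⟨n, hr⟩

/-- Adding a set of relators of small total weight keeps the condition. -/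
theorem isGS_union {t : ℝ} (ht : 0 ≤ t) {R : Set (FreeGroup (Fin d))}
    (hR : Summable (fun r : R => wt t (r : FreeGroup (Fin d))))
    (T : ℕ → Finset (FreeGroup (Fin d))) (f : ℕ → ℝ) (hf : Summable f)
    (hf0 : ∀ i, 0 ≤ f i)
    (hT : ∀ i, ∑ r ∈ T i, wt t r ≤ f i) (R' : Set (FreeGroup (Fin d)))
    (hR' : R' ⊆ R ∪ ⋃ i, (T i : Set (FreeGroup (Fin d)))) :
    Summable (fun r : R' => wt t (r : FreeGroup (Fin d))) ∧
      ∑' r : R', wt t (r : FreeGroup (Fin d)) ≤
        ∑' r : R, wt t (r : FreeGroup (Fin d)) + ∑' i, f i := by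
  classical
  set g : FreeGroup (Fin d) → ENNReal := fun r => ENNReal.ofReal (wt t r) with hg
  have h1 : ∑' r : R', g r ≤ ∑' r : R, g r + ∑' i, ENNReal.ofReal (f i) := by
    calc ∑' r : R', g r ≤ ∑' r : (R ∪ ⋃ i, (T i : Set (FreeGroup (Fin d))) : Set _), g r :=
          ENNReal.tsum_mono_subtype g hR'
      _ ≤ ∑' r : R, g r + ∑' r : (⋃ i, (T i : Set (FreeGroup (Fin d))) : Set _), g r :=
          ENNReal.tsum_union_le g _ _
      _ ≤ ∑' r : R, g r + ∑' i, ∑' r : (T i : Set (FreeGroup (Fin d))), g r := by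
          gcongr
          exact ENNReal.tsum_iUnion_le_tsum g _
      _ ≤ ∑' r : R, g r + ∑' i, ENNReal.ofReal (f i) := by
          gcongr with i
          have e1 : ∑' r : (T i : Set (FreeGroup (Fin d))), g r = ∑ r ∈ T i, g r :=
            Finset.tsum_subtype' (T i) g
          rw [e1]
          simp only [hg]
          rw [← ENNReal.ofReal_sum_of_nonneg (fun r _ => wt_nonneg ht r)]
          exact ENNReal.ofReal_le_ofReal (hT i)
  have e2 : ∑' r : R, g r = ENNReal.ofReal (∑' r : R, wt t (r : FreeGroup (Fin d))) :=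
    (ENNReal.ofReal_tsum_of_nonneg (fun r => wt_nonneg ht _) hR).symm
  have e3 : ∑' i, ENNReal.ofReal (f i) = ENNReal.ofReal (∑' i, f i) :=
    (ENNReal.ofReal_tsum_of_nonneg hf0 hf).symm
  rw [e2, e3, ← ENNReal.ofReal_add (tsum_nonneg fun r => wt_nonneg ht _) (tsum_nonneg hf0)] at h1
  have h2 : ∑' r : R', g r ≠ ⊤ := ne_top_of_le_ne_top ENNReal.ofReal_ne_top h1
  have h3 : Summable (fun r : R' => wt t (r : FreeGroup (Fin d))) := by
    have h4 := ENNReal.summable_toReal h2
    refine h4.congr ?_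
    intro r
    simp only [hg]
    rw [ENNReal.toReal_ofReal (wt_nonneg ht _)]
  refine ⟨h3, ?_⟩
  have e4 : ∑' r : R', g r = ENNReal.ofReal (∑' r : R', wt t (r : FreeGroup (Fin d))) :=
    (ENNReal.ofReal_tsum_of_nonneg (fun r => wt_nonneg ht _) h3).symm
  rw [e4] at h1
  exact (ENNReal.ofReal_le_ofReal_iff (add_nonneg (tsum_nonneg fun r => wt_nonneg ht _)
    (tsum_nonneg hf0))).1 h1

/-- Every Golod-Shafarevich presentation (for the prime two) can be enlarged to a
Golod-Shafarevich presentation, with the same `t`, whose group has at most `exp (n ^ η)` subgroups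
of index at most `n`, for every `η > 0` and all large `n`. -/
theorem result (d : ℕ) (R : Set (FreeGroup (Fin d))) (t : ℝ) (ht0 : 0 < t) (ht1 : t < 1)
    (h1R : (1 : FreeGroup (Fin d)) ∉ R) (hGS : IsGS d R t) :
    ∃ R' : Set (FreeGroup (Fin d)), R ⊆ R' ∧ (1 : FreeGroup (Fin d)) ∉ R' ∧ IsGS d R' t ∧
      (∀ n : ℕ, {H : Subgroup (FreeGroup (Fin d) ⧸ Subgroup.normalClosure R') |
        H.index ≠ 0 ∧ H.index ≤ n}.Finite) ∧
      ∀ η : ℝ, 0 < η → ∃ N : ℕ, ∀ n : ℕ, N ≤ n →
        (Set.ncard {H : Subgroup (FreeGroup (Fin d) ⧸ Subgroup.normalClosure R') |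
          H.index ≠ 0 ∧ H.index ≤ n} : ℝ) ≤ Real.exp ((n : ℝ) ^ η) := by
  classical
  obtain ⟨hsum, hlt⟩ := hGS
  obtain ⟨m, hm⟩ : ∃ m : ℕ, t ^ m < 1 / 4 :=
    exists_pow_lt_of_lt_one (by norm_num) ht1
  have hm0 : m ≠ 0 := by
    rintro rfl
    norm_num at hm
  obtain ⟨I, hI1, hfs, hfI⟩ := tail_small d
    (-(1 - (d : ℝ) * t + ∑' r : R, wt t (r : FreeGroup (Fin d)))) (by linarith)
  have hex := fun i : ℕ => exists_relators d (2 ^ i) (d * i * 2 ^ i + 1) (by positivity)
    (factorial_bound_gen d i) ((zass (F := FreeGroup (Fin d))).D (m * i))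
  choose T hTD hTcard hTkill using hex
  set R' : Set (FreeGroup (Fin d)) :=
    R ∪ {r | r ≠ 1 ∧ ∃ i : ℕ, r ∈ T (i + I)} with hR'
  have hwt : ∀ i, 1 ≤ i → ∀ r ∈ T i, wt t r ≤ (1 / 4 : ℝ) ^ i := by
    intro i hi r hr
    have h1 : r ∈ zas d (m * i) :=
      (mem_zass (n := m * i) (mul_ne_zero hm0 (by omega))).1 (hTD i r hr)
    refine (wt_le ht0.le h1).trans ?_
    rw [pow_mul]
    exact pow_le_pow_left₀ (by positivity) hm.le i
  have hTsum : ∀ i, ∑ r ∈ T (i + I), wt t r ≤
      ((d * (i + I) * 2 ^ (i + I) + 1 : ℕ) : ℝ) * (1 / 4 : ℝ) ^ (i + I) := by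
    intro i
    calc ∑ r ∈ T (i + I), wt t r ≤ ∑ _r ∈ T (i + I), (1 / 4 : ℝ) ^ (i + I) :=
          Finset.sum_le_sum (fun r hr => hwt (i + I) (by omega) r hr)
      _ = ((T (i + I)).card : ℝ) * (1 / 4 : ℝ) ^ (i + I) := by
          rw [Finset.sum_const, nsmul_eq_mul]
      _ ≤ _ := by
          apply mul_le_mul_of_nonneg_right _ (by positivity)
          exact_mod_cast hTcard (i + I)
  obtain ⟨hs', hle⟩ := isGS_union ht0.le hsum (fun i => T (i + I)) _ hfs
    (fun i => by positivity) hTsum R' (by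
      intro r hr
      rcases hr with hr | ⟨-, i, hi⟩
      · exact Or.inl hr
      · exact Or.inr (Set.mem_iUnion.2 ⟨i, hi⟩))
  set π := QuotientGroup.mk' (Subgroup.normalClosure R') with hπ
  have hπs : Function.Surjective π := QuotientGroup.mk'_surjective _
  have hfin : ∀ n : ℕ, {H : Subgroup (FreeGroup (Fin d) ⧸ Subgroup.normalClosure R') |
        H.index ≠ 0 ∧ H.index ≤ n}.Finite := by
    intro n
    rcases Nat.eq_zero_or_pos n with rfl | hn
    · refine Set.finite_empty.subset ?_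
      rintro H ⟨h1, h2⟩
      exact absurd (Nat.le_zero.1 h2) h1
    · have h1 := (subgroups_count d n hn).1
      refine Set.Finite.of_injOn (f := fun H => H.comap π) ?_
        ((Subgroup.comap_injective hπs).injOn) h1
      rintro H ⟨h2, h3⟩
      have h4 : (H.comap π).index = H.index := Subgroup.index_comap_of_surjective H hπs
      exact ⟨by rw [h4]; exact h2, by rw [h4]; exact h3⟩
  refine ⟨R', Set.subset_union_left, ?_, ⟨hs', by linarith⟩, hfin, ?_⟩
  · rintro (h | h)
    · exact h1R h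
    · exact h.1 rfl
  intro η hη
  set Q : ℝ := (2 : ℝ) ^ η with hQ
  have hQ1 : 1 < Q := Real.one_lt_rpow (by norm_num) hη
  obtain ⟨q, hq1, hqQ⟩ := exists_between hQ1
  obtain ⟨C, hC0, hC⟩ := count_gen (zass (F := FreeGroup (Fin d))) m q hq1
  obtain ⟨J, hJ⟩ := growth_gen C hC0 q Q (1 / Q) hq1 hqQ (by positivity)
  refine ⟨2 ^ (max J I) + 1, fun n hn => ?_⟩
  set i := Nat.clog 2 n with hi
  have hn2 : n ≤ 2 ^ i := Nat.le_pow_clog (by norm_num) n
  have hi1 : max J I < i := by
    have : 2 ^ (max J I) < 2 ^ i := by omega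
    exact (Nat.pow_lt_pow_iff_right (by norm_num)).1 this
  have hJi : J ≤ i := le_trans (le_max_left _ _) hi1.le
  have hIi : I ≤ i := le_trans (le_max_right _ _) hi1.le
  have hn3 : 2 ^ (i - 1) ≤ n := by
    have := Nat.pow_pred_clog_lt_self (b := 2) (by norm_num) (x := n)
      (by have : 1 ≤ 2 ^ (max J I) := Nat.one_le_two_pow
          omega)
    have h1 : 2 ^ (i - 1) < n := by simpa [hi] using this
    exact h1.le
  have hcomap : ∀ H : Subgroup (FreeGroup (Fin d) ⧸ Subgroup.normalClosure R'),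
      H.index ≠ 0 → H.index ≤ n → (zass (F := FreeGroup (Fin d))).D (m * i) ≤ H.comap π := by
    intro H h1 h2
    have h3 : (H.comap π).index = H.index := Subgroup.index_comap_of_surjective H hπs
    apply hTkill i (H.comap π) (by rw [h3]; exact h1) (by rw [h3]; exact h2.trans hn2)
    intro r hr
    by_cases hr1 : r = 1
    · rw [hr1]; exact Subgroup.one_mem _
    · have hrS : r ∈ Subgroup.normalClosure R' := by
        apply Subgroup.subset_normalClosure
        refine Or.inr ⟨hr1, i - I, ?_⟩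
        rw [Nat.sub_add_cancel hIi]
        exact hr
      have : π r = 1 := (QuotientGroup.eq_one_iff r).2 hrS
      show π r ∈ H
      rw [this]
      exact H.one_mem
  obtain ⟨hfin', hcard⟩ := hC i
  have h1 : Set.ncard {H : Subgroup (FreeGroup (Fin d) ⧸ Subgroup.normalClosure R') |
        H.index ≠ 0 ∧ H.index ≤ n} ≤
      {H : Subgroup (FreeGroup (Fin d)) | (zass (F := FreeGroup (Fin d))).D (m * i) ≤ H ∧
        H.index ≠ 0 ∧ H.index ≤ 2 ^ i}.ncard := by
    apply Set.ncard_le_ncard_of_injOn (fun H => H.comap π) _ _ hfin'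
    · rintro H ⟨h2, h3⟩
      have h4 : (H.comap π).index = H.index := Subgroup.index_comap_of_surjective H hπs
      exact ⟨hcomap H h2 h3, by rw [h4]; exact h2, by rw [h4]; exact h3.trans hn2⟩
    · intro H _ H' _ h
      exact Subgroup.comap_injective hπs h
  have h2 : ((Set.ncard {H : Subgroup (FreeGroup (Fin d) ⧸ Subgroup.normalClosure R') |
        H.index ≠ 0 ∧ H.index ≤ n} : ℕ) : ℝ) ≤
        ((i + 1 : ℕ) : ℝ) * (2 : ℝ) ^ (i * ⌊C * q ^ i⌋₊) := by
    have h3 := h1.trans hcard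
    exact_mod_cast h3
  refine h2.trans ((hJ i hJi).trans ?_)
  apply Real.exp_le_exp.2
  have hi0 : i = (i - 1) + 1 := by omega
  have h5 : 1 / Q * Q ^ i = Q ^ (i - 1) := by
    conv_lhs => rw [hi0]
    rw [pow_succ]
    field_simp
  rw [h5, hQ, Real.rpow_pow_comm (by norm_num)]
  apply Real.rpow_le_rpow (by positivity) _ hη.le
  exact_mod_cast hn3

end Pool.Agent.Results.MP_306e37_al.SlowQuotient
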